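import Pool.Agent.helper82.UN.SpecP

/-! # Project UN, block H, row POI: Poisson summation in `ℝ^ι` -/

set_option autoImplicit false

open NumberField Complex MeasureTheory nonZeroDivisors

namespace Pool.Agent.UN

/-- the characters of the torus at a real point -/
theorem POI_char {ι : Type} [Fintype ι] (k : ι → ℤ) (t : ι → ℝ) :
    UnitAddTorus.mFourier k (fun i => (t i : UnitAddCircle)) = ee (∑ i, (k i : ℝ) * t i) := by
  change ∏ i : ι, fourier (k i) (t i : UnitAddCircle) = _
  have h1 : ∀ i : ι, fourier (k i) (t i : UnitAddCircle) =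
      Complex.exp (((2 * Real.pi * ((k i : ℝ) * t i) : ℝ) : ℂ) * I) := by
    intro i
    rw [fourier_coe_apply]
    congr 1
    push_cast
    rw [div_one]
    ring
  rw [Finset.prod_congr rfl fun i _ => h1 i, ← Complex.exp_sum]
  unfold ee
  congr 1
  rw [← Finset.sum_mul, ← Complex.ofReal_sum, Finset.mul_sum]

theorem POI (hPTQ : PTQ_stmt) (hPPC : PPC_stmt) (hPFC : PFC_stmt) : POI_stmt := by
  intro ι _ f hf hd hs t
  obtain ⟨h1, h2, h3⟩ := hPPC ι f hf hd
  obtain ⟨G, hG⟩ := hPTQ ι (fun t => ∑' k : ι → ℤ, f (t + zc k)) h2 (fun k t => h3 k t)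
  have hc : UnitAddTorus.mFourierCoeff G = FT f := funext (hPFC ι f G hf hd hG)
  have h4 := UnitAddTorus.hasSum_mFourier_series_apply_of_summable (f := G) (by rw [hc]; exact hs)
    (fun i => (t i : UnitAddCircle))
  rw [hG t] at h4
  rw [← h4.tsum_eq]
  refine tsum_congr fun k => ?_
  rw [hc, POI_char, smul_eq_mul]

end Pool.Agent.UN
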